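import Pool.Agent.H2.UST.H6
import Pool.Agent.H72.S6B.Def

/-!
# (H6) in a class, for frames whose plane of directions is not visible

`H62PStmt`: `H62Stmt` of helper2 with the frames `UFi` of helper72. The plane of directions `(s, t)`
is a function of the label `wn` only; it is not a function of the exact point. In the normal
coordinate the velocity at the exact point is `kN d_e + nN` (functions of the exact point), and
`kN = s al + t` up to `C / 2 ^ kap`.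
-/

set_option autoImplicit false

namespace Pool.S6B

open Finset Real
open Pool.Agent.H49.Ent Pool.Agent.H32.Dense Pool.STK Pool.KA Pool.KA.Win Pool.KA.TRC
  Pool.KSAT Pool.K2S Pool.K2S.Rows Pool.K2S.FF Pool.PB Pool.S6K.Wfe Pool.UST Pool.S6U Pool.S6C

/-- **(H62P)** `H62Stmt` with the frames `UFi`: the slopes of two samples of a label `wn` are not
close, if `wn` is a function of the window and determines the frame. `rt` is the number `rot`. -/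
def H62PStmt : Prop :=
  ∀ (S : PCl 3) (a₁ R : ℝ) (i₀ : Fin 3) (rt : ℚ → ℝ),
    (∀ (τ : ℝ) (J : ℕ) (F : Fam 3 J) (A : F.Ω → Prop), S.St τ J F A → Fam.Stt F a₁ R τ A) →
    (∀ w : ℚ, 0 ≤ w → w ≤ 1 → PNum S (capS 1 (qRot i₀ 1 w)) (rt w)) →
    ∀ (w₁ w₂ : ℚ) (h ε : ℝ), 0 ≤ w₁ → w₁ < w₂ → w₂ ≤ 1 → 0 < h → 0 < ε →
    (∀ w : ℚ, w₁ ≤ w → w ≤ w₂ → 0 ≤ rt w ∧ rt w + h ≤ 1) → ∀ B C : ℝ,
    Clp S (fun J F A => ∀ (σ : Fin 3 → Fin 3) (wl wa wb : ℕ) (vp : ℕ → ℕ) (kap Hu HN : ℕ)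
      (al nu kN nN : (Fin 3 → ℤ) × (ℕ × F.ζ) → ℝ) (a : ℕ → F.Ω → ℝ) (s t : F.Ω → ℝ),
      UFi F A σ wl wa wb vp kap Hu HN al nu kN nN a s t B C → σ 0 = i₀ →
      ∀ (w D : ℕ) (V : Type) (wn : F.Ω → V) (x : ℝ), wa ≤ w → w ≤ wb →
      Det F.p (slam F w) wn →
      (∀ ω ω', A ω → A ω' → 0 < F.p ω → 0 < F.p ω' → wn ω = wn ω' →
        a w ω = a w ω' ∧ s ω = s ω' ∧ t ω = t ω') →
      (w₁ : ℝ) * J ≤ w → w + h * J ≤ w₂ * J →
      (∀ wg : ℚ, (w : ℝ) ≤ wg * J → wg * J ≤ w + h * J → w₁ ≤ wg → wg ≤ w₂ →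
        rt wg * J + 2 * h * J ≤ vp w + x ∧ rt wg * J + 2 * h * J ≤ D ∧
        rt wg * J + 2 * h * J ≤ kap ∧ rt wg * J + 2 * h * J ≤ Hu ∧
        rt wg * J + 2 * h * J ≤ HN) →
      Pool.KAF.Pr (dbl (Pool.Agent.H49.Ent.cond F.p A True) wn)
        {v | |sl (vp w) D (a w) (fun ω => al (Fam.pt F ω)) v.1 -
          sl (vp w) D (a w) (fun ω => al (Fam.pt F ω)) v.2| < (2 : ℝ) ^ (-x)} ≤ ε)

section one

variable {J : ℕ} {F : Fam 3 J} {A : F.Ω → Prop} {σ : Fin 3 → Fin 3} {wl wa wb : ℕ}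
    {vp : ℕ → ℕ} {kap Hu HN : ℕ} {al nu kN nN : (Fin 3 → ℤ) × (ℕ × F.ζ) → ℝ} {a : ℕ → F.Ω → ℝ}
    {s t : F.Ω → ℝ} {B C : ℝ}

/-- **(H6)** for one family: the slopes of two samples of a label which is a function of the
window, and which determines the plank, are not close. -/
theorem UFi.cpy_lt (h : UFi F A σ wl wa wb vp kap Hu HN al nu kN nN a s t B C) {κ r ρ : ℝ} {wg : ℕ}
    (hA : 0 < Pe F.p A) (hs : Stb F.p κ A (RotU (σ 0) r r (Fam.pt F) (slam F wg) F.d))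
    (hn : ¬ RotU (σ 0) r r (Fam.pt F) (slam F wg) F.d A)
    (h1 : B / 2 ^ Hu ≤ r) (h2 : B / 2 ^ HN + B * (B / 2 ^ Hu) ≤ r)
    (h3 : B * ρ + 2 * (C / 2 ^ kap) ≤ r) (hρ : ρ ≤ r) (hr : 0 ≤ r) {V : Type} {wn : F.Ω → V}
    {φ : ((Fin 3 → ℝ) × (Fin 3 → ℝ)) × F.ζ × ℕ → V} (hφ : ∀ ω, wn ω = φ (slam F wg ω))
    (hst : ∀ ω ω', A ω → A ω' → 0 < F.p ω → 0 < F.p ω' → wn ω = wn ω' → s ω = s ω' ∧ t ω = t ω') :
    Pe (cpy (Pool.Agent.H49.Ent.cond F.p A True) wn)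
      (fun v => |al (Fam.pt F v.1) - al (Fam.pt F v.2)| ≤ ρ) < Real.exp (-κ) := by
  obtain ⟨e, he⟩ : ∃ e : (Fin 3 → ℤ) × (ℕ × F.ζ) → Fin 3 → ℝ, e = fun u j =>
    if j = σ 0 then 1 else if j = σ 1 then al u else kN u := ⟨_, rfl⟩
  obtain ⟨n, hn'⟩ : ∃ n : (Fin 3 → ℤ) × (ℕ × F.ζ) → Fin 3 → ℝ, n = fun u j =>
    if j = σ 0 then 0 else if j = σ 1 then nu u else nN u := ⟨_, rfl⟩
  have h01 : σ 1 ≠ σ 0 := fun e => by
    have := h.bij.1 e
    exact absurd this (by decide)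
  have h20 : σ 2 ≠ σ 0 := fun e => by
    have := h.bij.1 e
    exact absurd this (by decide)
  have h21 : σ 2 ≠ σ 1 := fun e => by
    have := h.bij.1 e
    exact absurd this (by decide)
  have hc : ∀ j : Fin 3, j = σ 0 ∨ j = σ 1 ∨ j = σ 2 := by
    intro j
    obtain ⟨i, hi⟩ := h.bij.2 j
    rw [← hi]
    fin_cases i
    · exact Or.inl rfl
    · exact Or.inr (Or.inl rfl)
    · exact Or.inr (Or.inr rfl)
  have hon : OnL (σ 0) r (Fam.pt F) F.d A e n := by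
    intro ω hω j
    rcases hc j with hj | hj | hj
    · rw [hj, he, hn']
      simp only [if_true]
      rw [show F.d ω (σ 0) - 1 * F.d ω (σ 0) - 0 = 0 by ring, abs_zero]
      exact hr
    · rw [hj, he, hn']
      simp only [if_neg h01, if_true]
      exact (h.on1 ω hω).trans h1
    · rw [hj, he, hn']
      simp only [if_neg h20, if_neg h21]
      have a1 := h.on1 ω hω
      have a2 := h.on2 ω hω
      have a3 := (h.bd ω hω).1
      have e2 : F.d ω (σ 2) - kN (Fam.pt F ω) * F.d ω (σ 0) - nN (Fam.pt F ω) =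
          ((F.d ω (σ 2) - kN (Fam.pt F ω) * F.d ω (σ 0) - nN (Fam.pt F ω)) -
            s ω * (F.d ω (σ 1) - al (Fam.pt F ω) * F.d ω (σ 0) - nu (Fam.pt F ω))) +
          s ω * (F.d ω (σ 1) - al (Fam.pt F ω) * F.d ω (σ 0) - nu (Fam.pt F ω)) := by ring
      rw [e2]
      refine (abs_add_le _ _).trans (le_trans ?_ h2)
      rw [abs_mul]
      have hB := h.B1
      exact add_le_add a2 (mul_le_mul a3 a1 (abs_nonneg _) (by linarith only [hB]))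
  have key := Stb.rotU_cpy_lt F.isLaw hA hs hn hon (wn' := wn) (φ := φ) hφ
  refine lt_of_le_of_lt ?_ key
  have hl := isLaw_cond F.isLaw hA
  have h0 := hl.nonneg
  rw [Pe_eq, Pe_eq]
  refine Finset.sum_le_sum fun v _ => ?_
  have hnn : 0 ≤ cpy (Pool.Agent.H49.Ent.cond F.p A True) wn v := by
    unfold cpy
    split_ifs
    · exact div_nonneg (mul_nonneg (h0 _) (h0 _)) (law_nonneg h0 _ _)
    · exact le_rfl
  by_cases hv : cpy (Pool.Agent.H49.Ent.cond F.p A True) wn v = 0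
  · simp [hv]
  by_cases hcl : |al (Fam.pt F v.1) - al (Fam.pt F v.2)| ≤ ρ
  swap
  · rw [if_neg hcl]
    split_ifs
    · exact hnn
    · exact le_rfl
  rw [if_pos hcl, if_pos]
  have hvv : wn v.1 = wn v.2 ∧ 0 < Pool.Agent.H49.Ent.cond F.p A True v.1 ∧
      0 < Pool.Agent.H49.Ent.cond F.p A True v.2 := by
    unfold cpy at hv
    by_cases hw : wn v.1 = wn v.2
    · rw [if_pos hw] at hv
      refine ⟨hw, lt_of_le_of_ne (h0 _) fun e => hv ?_, lt_of_le_of_ne (h0 _) fun e => hv ?_⟩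
      · rw [← e]
        simp
      · rw [← e]
        simp
    · rw [if_neg hw] at hv
      exact absurd rfl hv
  obtain ⟨hw, hp1, hp2⟩ := hvv
  have hA1 : A v.1 ∧ 0 < F.p v.1 := by
    have := (cond_pos_iff F.isLaw.nonneg A True v.1).1 hp1
    exact ⟨by simpa using this.2, this.1⟩
  have hA2 : A v.2 ∧ 0 < F.p v.2 := by
    have := (cond_pos_iff F.isLaw.nonneg A True v.2).1 hp2
    exact ⟨by simpa using this.2, this.1⟩
  obtain ⟨es, et⟩ := hst v.1 v.2 hA1.1 hA2.1 hA1.2 hA2.2 hw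
  intro j
  rcases hc j with hj | hj | hj
  · rw [hj, he]
    simp only [if_true]
    rw [sub_self, abs_zero]
    exact hr
  · rw [hj, he]
    simp only [if_neg h01, if_true]
    exact hcl.trans hρ
  · rw [hj, he]
    simp only [if_neg h20, if_neg h21]
    have e3 : kN (Fam.pt F v.1) - kN (Fam.pt F v.2) =
        s v.1 * (al (Fam.pt F v.1) - al (Fam.pt F v.2)) +
          ((kN (Fam.pt F v.1) - s v.1 * al (Fam.pt F v.1) - t v.1) -
            (kN (Fam.pt F v.2) - s v.2 * al (Fam.pt F v.2) - t v.2)) := by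
      rw [← es, ← et]
      ring
    rw [e3]
    refine (abs_add_le _ _).trans (le_trans ?_ h3)
    rw [abs_mul]
    have a1 := (h.bd v.1 hA1.1).1
    have a2 := h.clo v.1 hA1.1
    have a3 := h.clo v.2 hA2.1
    have a4 := abs_sub (kN (Fam.pt F v.1) - s v.1 * al (Fam.pt F v.1) - t v.1)
      (kN (Fam.pt F v.2) - s v.2 * al (Fam.pt F v.2) - t v.2)
    have hB := h.B1
    have a5 : |s v.1| * |al (Fam.pt F v.1) - al (Fam.pt F v.2)| ≤ B * ρ :=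
      mul_le_mul a1 hcl (abs_nonneg _) (by linarith only [hB])
    linarith only [a2, a3, a4, a5]

/-- **(H6)** in a context, one family. -/
theorem UFi.h6 (h : UFi F A σ wl wa wb vp kap Hu HN al nu kN nN a s t B C) {κ r y : ℝ} {wg w D : ℕ}
    (hA : 0 < Pe F.p A) (hs : Stb F.p κ A (RotU (σ 0) r r (Fam.pt F) (slam F wg) F.d))
    (hn : ¬ RotU (σ 0) r r (Fam.pt F) (slam F wg) F.d A) (hw1 : wa ≤ w) (hw2 : w ≤ wb)
    (hwg : w ≤ wg) (hgJ : wg ≤ J) (h1 : B / 2 ^ Hu ≤ r) (h2 : B / 2 ^ HN + B * (B / 2 ^ Hu) ≤ r)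
    (h3 : B * (y / 2 ^ vp w + 2 / 2 ^ D) + 2 * (C / 2 ^ kap) ≤ r) (hr : 0 ≤ r)
    (hy : 0 ≤ y) {V : Type} {wn : F.Ω → V} (hwn : Det F.p (slam F w) wn)
    (hfr : ∀ ω ω', A ω → A ω' → 0 < F.p ω → 0 < F.p ω' → wn ω = wn ω' →
      a w ω = a w ω' ∧ s ω = s ω' ∧ t ω = t ω') :
    Pool.KAF.Pr (dbl (Pool.Agent.H49.Ent.cond F.p A True) wn)
      {v | |sl (vp w) D (a w) (fun ω => al (Fam.pt F ω)) v.1 -
        sl (vp w) D (a w) (fun ω => al (Fam.pt F ω)) v.2| < y} ≤ Real.exp (-κ) := by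
  classical
  have hp := F.isLaw
  have hl := isLaw_cond hp hA
  have h0 := hl.nonneg
  obtain ⟨q, hq⟩ : ∃ q, q = Pool.Agent.H49.Ent.cond F.p A True := ⟨_, rfl⟩
  rw [← hq] at hl h0 ⊢
  have hqA : ∀ ω, 0 < q ω → A ω ∧ 0 < F.p ω := by
    intro ω hω
    rw [hq] at hω
    have := (cond_pos_iff hp.nonneg A True ω).1 hω
    exact ⟨by simpa using this.2, this.1⟩
  obtain ⟨ρ, hρ⟩ : ∃ ρ, ρ = y / 2 ^ vp w + 2 / 2 ^ D := ⟨_, rfl⟩
  have hρ0 : 0 ≤ ρ := by rw [hρ]; positivity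
  rw [← hρ] at h3
  have hB := h.B1
  have hC := h.C1
  have hρr : ρ ≤ r := by
    have e1 : ρ ≤ B * ρ := by nlinarith only [hρ0, hB]
    have e2 : 0 ≤ 2 * (C / 2 ^ kap) := by positivity
    linarith only [h3, e1, e2]
  -- the label is a function of the window `wg`
  have hdet : Det F.p (slam F wg) wn := by
    intro ω ω' hω hω' e
    have e2 : slam F w ω = slam F w ω' := by
      rw [slam_coarse F hwg hgJ ω, slam_coarse F hwg hgJ ω', e]
    exact hwn ω ω' hω hω' e2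
  obtain ⟨ω₀, hω₀⟩ : ∃ ω₀ : F.Ω, True := by
    by_contra hcon
    push Not at hcon
    have : Pe F.p A = 0 := by
      rw [Pe_eq]
      refine Finset.sum_eq_zero fun ω _ => ?_
      exact ((hcon ω).elim)
    linarith only [hA, this]
  obtain ⟨φ, hφ⟩ := exists_fn_supp (q := F.p) hdet ω₀
  -- the label on the support
  have hcpy : dbl q wn = cpy q (fun ω => φ (slam F wg ω)) := by
    rw [show cpy q (fun ω => φ (slam F wg ω)) = dbl q (fun ω => φ (slam F wg ω)) from rfl]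
    refine dbl_congr h0 fun ω ω' hω hω' => ?_
    rw [hφ ω (hqA ω hω).2, hφ ω' (hqA ω' hω').2]
  have key := h.cpy_lt hA hs hn h1 h2 h3 hρr hr (wn := fun ω => φ (slam F wg ω)) (φ := φ)
    (fun _ => rfl) (by
      intro ω ω' hAω hAω' hω hω' e
      have e1 : wn ω = wn ω' := by
        rw [hφ ω hω, hφ ω' hω']
        exact e
      exact (hfr ω ω' hAω hAω' hω hω' e1).2)
  refine le_trans ?_ key.le
  rw [hcpy, ← hq]
  unfold Pool.KAF.Pr
  have hnn : ∀ v, 0 ≤ cpy q (fun ω => φ (slam F wg ω)) v := by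
    intro v
    unfold cpy
    split_ifs
    · exact div_nonneg (mul_nonneg (h0 _) (h0 _)) (law_nonneg h0 _ _)
    · exact le_rfl
  change Pe _ _ ≤ _
  rw [Pe_eq, Pe_eq]
  refine Finset.sum_le_sum fun v _ => ?_
  by_cases hv : cpy q (fun ω => φ (slam F wg ω)) v = 0
  · rw [hv]
    simp
  by_cases hcl : v ∈ {v : F.Ω × F.Ω | |sl (vp w) D (a w) (fun ω => al (Fam.pt F ω)) v.1 -
        sl (vp w) D (a w) (fun ω => al (Fam.pt F ω)) v.2| < y}
  swap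
  · rw [if_neg hcl]
    split_ifs
    · exact hnn v
    · exact le_rfl
  rw [if_pos hcl, if_pos]
  have hcl' : |sl (vp w) D (a w) (fun ω => al (Fam.pt F ω)) v.1 -
        sl (vp w) D (a w) (fun ω => al (Fam.pt F ω)) v.2| < y := hcl
  have hvv : φ (slam F wg v.1) = φ (slam F wg v.2) ∧ 0 < q v.1 ∧ 0 < q v.2 := by
    unfold cpy at hv
    by_cases hw : φ (slam F wg v.1) = φ (slam F wg v.2)
    · rw [if_pos hw] at hv
      refine ⟨hw, lt_of_le_of_ne (h0 _) fun e => hv ?_, lt_of_le_of_ne (h0 _) fun e => hv ?_⟩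
      · rw [← e]
        simp
      · rw [← e]
        simp
    · rw [if_neg hw] at hv
      exact absurd rfl hv
  obtain ⟨hw, hp1, hp2⟩ := hvv
  have e1 : wn v.1 = wn v.2 := by
    rw [hφ v.1 (hqA _ hp1).2, hφ v.2 (hqA _ hp2).2]
    exact hw
  have e3 : a w v.1 = a w v.2 :=
    (hfr _ _ (hqA _ hp1).1 (hqA _ hp2).1 (hqA _ hp1).2 (hqA _ hp2).2 e1).1
  have n1 := dg_near D (fun ω => al (Fam.pt F ω)) v.1
  have n2 := dg_near D (fun ω => al (Fam.pt F ω)) v.2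
  obtain ⟨g1, hg1⟩ : ∃ g : ℝ, g = (Uni.dg D (fun ω => al (Fam.pt F ω)) v.1 : ℝ) / 2 ^ D := ⟨_, rfl⟩
  obtain ⟨g2, hg2⟩ : ∃ g : ℝ, g = (Uni.dg D (fun ω => al (Fam.pt F ω)) v.2 : ℝ) / 2 ^ D := ⟨_, rfl⟩
  unfold sl at hcl'
  rw [← hg1, ← hg2, e3] at hcl'
  rw [← hg1] at n1
  rw [← hg2] at n2
  have e4 : (2 : ℝ) ^ vp w * (g1 - a w v.2) - 2 ^ vp w * (g2 - a w v.2) =
      2 ^ vp w * (g1 - g2) := by ring
  rw [e4, abs_mul, abs_of_pos (by positivity : (0 : ℝ) < 2 ^ vp w)] at hcl'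
  have e5 : |g1 - g2| ≤ y / 2 ^ vp w := by
    rw [le_div_iff₀ (by positivity)]
    linarith only [hcl']
  have e6 : (2 : ℝ) / 2 ^ D = 1 / 2 ^ D + 1 / 2 ^ D := by ring
  rw [hρ, e6]
  rw [abs_le] at n1 n2 e5 ⊢
  constructor <;> linarith only [n1, n2, e5, n1.1, n1.2, n2.1, n2.2, e5.1, e5.2]

end one

/-- **(H6)** at one rational window `wg` and the contexts of the windows just before it. -/
theorem h62p_one {S : PCl 3} {a₁ R : ℝ} {i₀ : Fin 3} {rt : ℝ}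
    (hSt : ∀ (τ : ℝ) (J : ℕ) (F : Fam 3 J) (A : F.Ω → Prop), S.St τ J F A → Fam.Stt F a₁ R τ A)
    {wg : ℚ} (hw1 : wg ≤ 1) (hrt : PNum S (capS 1 (qRot i₀ 1 wg)) rt)
    {h ε : ℝ} (hh : 0 < h) (hε : 0 < ε) (hr0 : 0 ≤ rt) (hr1 : rt + h ≤ 1) (B C : ℝ) :
    Clp S (fun J F A => ∀ (σ : Fin 3 → Fin 3) (wl wa wb : ℕ) (vp : ℕ → ℕ) (kap Hu HN : ℕ)
      (al nu kN nN : (Fin 3 → ℤ) × (ℕ × F.ζ) → ℝ) (a : ℕ → F.Ω → ℝ) (s t : F.Ω → ℝ),
      UFi F A σ wl wa wb vp kap Hu HN al nu kN nN a s t B C → σ 0 = i₀ →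
      ∀ (w D : ℕ) (V : Type) (wn : F.Ω → V) (x : ℝ), wa ≤ w → w ≤ wb →
        Det F.p (slam F w) wn →
        (∀ ω ω', A ω → A ω' → 0 < F.p ω → 0 < F.p ω' → wn ω = wn ω' →
          a w ω = a w ω' ∧ s ω = s ω' ∧ t ω = t ω') → (w : ℝ) ≤ wg * J →
        rt * J + 2 * h * J ≤ vp w + x → rt * J + 2 * h * J ≤ D →
        rt * J + 2 * h * J ≤ kap → rt * J + 2 * h * J ≤ Hu → rt * J + 2 * h * J ≤ HN →
      Pool.KAF.Pr (dbl (Pool.Agent.H49.Ent.cond F.p A True) wn)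
        {v | |sl (vp w) D (a w) (fun ω => al (Fam.pt F ω)) v.1 -
          sl (vp w) D (a w) (fun ω => al (Fam.pt F ω)) v.2| < (2 : ℝ) ^ (-x)} ≤ ε) := by
  -- the stable list
  have h1 : Clp S (fun J F A => ¬ qRot i₀ 1 wg (rt + h) J F A →
      ∀ (σ : Fin 3 → Fin 3) (wl wa wb : ℕ) (vp : ℕ → ℕ) (kap Hu HN : ℕ)
      (al nu kN nN : (Fin 3 → ℤ) × (ℕ × F.ζ) → ℝ) (a : ℕ → F.Ω → ℝ) (s t : F.Ω → ℝ),
      UFi F A σ wl wa wb vp kap Hu HN al nu kN nN a s t B C → σ 0 = i₀ →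
      ∀ (w D : ℕ) (V : Type) (wn : F.Ω → V) (x : ℝ), wa ≤ w → w ≤ wb →
        Det F.p (slam F w) wn →
        (∀ ω ω', A ω → A ω' → 0 < F.p ω → 0 < F.p ω' → wn ω = wn ω' →
          a w ω = a w ω' ∧ s ω = s ω' ∧ t ω = t ω') → (w : ℝ) ≤ wg * J →
        rt * J + 2 * h * J ≤ vp w + x → rt * J + 2 * h * J ≤ D →
        rt * J + 2 * h * J ≤ kap → rt * J + 2 * h * J ≤ Hu → rt * J + 2 * h * J ≤ HN →
      Pool.KAF.Pr (dbl (Pool.Agent.H49.Ent.cond F.p A True) wn)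
        {v | |sl (vp w) D (a w) (fun ω => al (Fam.pt F ω)) v.1 -
          sl (vp w) D (a w) (fun ω => al (Fam.pt F ω)) v.2| < (2 : ℝ) ^ (-x)} ≤ ε) := by
    refine Clp.one ⟨1, fun J F _ => qRot i₀ 1 wg (rt + h) J F,
      fun J F _ => qRot.hered i₀ 1 wg (rt + h) J F⟩ fun κ hκ => ?_
    obtain ⟨J₁, hJ₁⟩ := big_pow (K := max ((B + B * B + 3 * B + 3 * C) * 8) 1) hh
    obtain ⟨J₂, hJ₂⟩ := exists_nat_ge (-Real.log ε / κ)
    refine ⟨1, one_pos, max J₁ J₂, fun J hJ F A hS hSb hnR σ wl wa wb vp kap Hu HN al nu kN nN a s t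
      hU hσ w D V wn x hwa hwb hwn hfr hwg e1 e2 e3 e4 e5 => ?_⟩
    have hJ1 := hJ₁ J ((le_max_left _ _).trans hJ)
    have hBp := hU.B1
    have hCp := hU.C1
    obtain ⟨K, hK⟩ : ∃ K, K = (B + B * B + 3 * B + 3 * C) * 8 := ⟨_, rfl⟩
    have hK1 : K ≤ (2 : ℝ) ^ (h * (J : ℝ)) := by
      rw [hK]
      exact (le_max_left _ _).trans hJ1
    have hBB : 0 ≤ B * B := by positivity
    have k1 : B / (1 / 2) ≤ (2 : ℝ) ^ (h * (J : ℝ)) := by
      have e : B / (1 / 2) = 2 * B := by ring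
      rw [e]
      linarith only [hBp, hCp, hK, hK1, hBB]
    have k2 : B * B / (1 / 2) ≤ (2 : ℝ) ^ (h * (J : ℝ)) := by
      have e : B * B / (1 / 2) = 2 * (B * B) := by ring
      rw [e]
      linarith only [hBp, hCp, hK, hK1, hBB]
    have k3 : B / (1 / 4) ≤ (2 : ℝ) ^ (h * (J : ℝ)) := by
      have e : B / (1 / 4) = 4 * B := by ring
      rw [e]
      linarith only [hBp, hCp, hK, hK1, hBB]
    have k4 : 2 * B / (1 / 4) ≤ (2 : ℝ) ^ (h * (J : ℝ)) := by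
      have e : 2 * B / (1 / 4) = 8 * B := by ring
      rw [e]
      linarith only [hBp, hCp, hK, hK1, hBB]
    have k5 : 2 * C / (1 / 2) ≤ (2 : ℝ) ^ (h * (J : ℝ)) := by
      have e : 2 * C / (1 / 2) = 4 * C := by ring
      rw [e]
      linarith only [hBp, hCp, hK, hK1, hBB]
    have hJ0 : (0 : ℝ) ≤ J := Nat.cast_nonneg J
    have hs0 : 0 ≤ (rt + h) * (J : ℝ) := by positivity
    have hA0 : 0 < Pe F.p A := lt_of_lt_of_le (Real.exp_pos _) (hSt 1 J F A hS).2.2.2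
    have hs := hSb 0
    change Stb F.p (κ * J) A (qRot i₀ 1 wg (rt + h) J F) at hs
    have hpt : Pool.KS6.ptq F ⌊(1 : ℝ) * J⌋₊ = Fam.pt F := by
      funext ω
      simp only [one_mul, Nat.floor_natCast]
      rfl
    have hQ : qRot i₀ 1 wg (rt + h) J F = RotU (σ 0) (1 / 2 ^ ⌊(rt + h) * J⌋₊)
        (1 / 2 ^ ⌊(rt + h) * J⌋₊) (Fam.pt F) (slam F ⌊(wg : ℝ) * J⌋₊) F.d := by
      funext A'
      unfold qRot
      rw [hpt, hσ]
    rw [hQ] at hs hnR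
    have hwg' : w ≤ ⌊(wg : ℝ) * J⌋₊ := Nat.le_floor hwg
    have hgJ : ⌊(wg : ℝ) * J⌋₊ ≤ J := by
      have h2 : (wg : ℝ) * J ≤ J := by
        have : (wg : ℝ) ≤ 1 := by exact_mod_cast hw1
        nlinarith only [this]
      calc ⌊(wg : ℝ) * J⌋₊ ≤ ⌊(J : ℝ)⌋₊ := Nat.floor_le_floor h2
        _ = J := Nat.floor_natCast J
    have hεκ : Real.exp (-(κ * J)) ≤ ε := by
      have h2 : -Real.log ε / κ ≤ J := hJ₂.trans (by exact_mod_cast (le_max_right _ _).trans hJ)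
      rw [div_le_iff₀ hκ] at h2
      calc Real.exp (-(κ * J)) ≤ Real.exp (Real.log ε) := Real.exp_le_exp.2 (by linarith only [h2])
        _ = ε := Real.exp_log hε
    refine (hU.h6 hA0 hs hnR hwa hwb hwg' hgJ ?_ ?_ ?_ (by positivity) (by positivity) hwn
      hfr).trans hεκ
    · have g2 := div_pow_le (K := B) (g := 1 / 2) (n := Hu) hs0 k1 (by norm_num) (by linarith only [e4])
      refine g2.trans (div_le_div_of_nonneg_right (by norm_num) (by positivity))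
    · have g2 := div_pow_le (K := B) (g := 1 / 2) (n := HN) hs0 k1 (by norm_num) (by linarith only [e5])
      have g3 := div_pow_le (K := B * B) (g := 1 / 2) (n := Hu) hs0 k2 (by norm_num)
        (by linarith only [e4])
      have e6 : B * (B / 2 ^ Hu) = B * B / 2 ^ Hu := by ring
      have e7 : (1 : ℝ) / 2 ^ ⌊(rt + h) * J⌋₊ = 1 / 2 / 2 ^ ⌊(rt + h) * J⌋₊ +
        1 / 2 / 2 ^ ⌊(rt + h) * J⌋₊ := by ring
      rw [e6, e7]
      exact add_le_add g2 g3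
    · have g2 := div_rpow_le (K := B) (g := 1 / 4) (z := vp w + x) hs0 k3 (by norm_num)
        (by linarith only [e1])
      have g3 := div_pow_le (K := 2 * B) (g := 1 / 4) (n := D) hs0 k4 (by norm_num)
        (by linarith only [e2])
      have g4 := div_pow_le (K := 2 * C) (g := 1 / 2) (n := kap) hs0 k5 (by norm_num)
        (by linarith only [e3])
      have e6 : B * ((2 : ℝ) ^ (-x) / 2 ^ vp w + 2 / 2 ^ D) + 2 * (C / 2 ^ kap) =
          B * 2 ^ (-((vp w : ℝ) + x)) + 2 * B / 2 ^ D + 2 * C / 2 ^ kap := by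
        have : (2 : ℝ) ^ (-((vp w : ℝ) + x)) = 2 ^ (-x) / 2 ^ vp w := by
          rw [neg_add, Real.rpow_add (by norm_num), Real.rpow_neg (by norm_num) (vp w : ℝ),
            Real.rpow_natCast]
          field_simp
        rw [this]
        ring
      have e7 : (1 : ℝ) / 2 ^ ⌊(rt + h) * J⌋₊ = 1 / 4 / 2 ^ ⌊(rt + h) * J⌋₊ +
        1 / 4 / 2 ^ ⌊(rt + h) * J⌋₊ + 1 / 2 / 2 ^ ⌊(rt + h) * J⌋₊ := by ring
      rw [e6, e7]
      exact add_le_add (add_le_add g2 g3) g4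
  refine Clp.mono (J₂ := 0) (h1.and (hrt.2 h hh)) ?_
  rintro J - F A ⟨c1, c2⟩
  refine c1 fun hq => c2 ?_
  exact Or.inr ⟨hr1, hq⟩

/-- **(H62P)** -/
theorem h62p : H62PStmt := by
  intro S a₁ R i₀ rt hSt hrt w₁ w₂ h ε hw₁ h12 hw₂ hh hε hr B C
  -- the mesh
  obtain ⟨N, hN⟩ := exists_nat_gt (((w₂ - w₁ : ℚ) : ℝ) / (h / 2))
  have hd0 : (0 : ℝ) < ((w₂ - w₁ : ℚ) : ℝ) := by exact_mod_cast sub_pos.2 h12
  have hN0 : (0 : ℝ) < N := lt_of_le_of_lt (by positivity) hN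
  have hNq : (0 : ℚ) < N := by exact_mod_cast hN0
  obtain ⟨m, hm⟩ : ∃ m : ℕ → ℚ, m = fun i : ℕ => w₁ + (i : ℚ) * ((w₂ - w₁) / N) := ⟨_, rfl⟩
  have hmr : ∀ i : ℕ, i ≤ N → w₁ ≤ m i ∧ m i ≤ w₂ := by
    intro i hi
    have hi' : (i : ℚ) ≤ N := by exact_mod_cast hi
    have hd : (0 : ℚ) < w₂ - w₁ := sub_pos.2 h12
    rw [hm]
    constructor
    · have : (0 : ℚ) ≤ i * ((w₂ - w₁) / N) := by positivity
      simp only
      linarith only [this]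
    · have : (i : ℚ) * ((w₂ - w₁) / N) ≤ N * ((w₂ - w₁) / N) :=
        mul_le_mul_of_nonneg_right hi' (by positivity)
      have e : (N : ℚ) * ((w₂ - w₁) / N) = w₂ - w₁ := by field_simp
      simp only
      linarith only [this, e]
  have key := Clp.all (S := S) (N + 1) (Φ := fun i J F A =>
      ∀ (σ : Fin 3 → Fin 3) (wl wa wb : ℕ) (vp : ℕ → ℕ) (kap Hu HN : ℕ)
      (al nu kN nN : (Fin 3 → ℤ) × (ℕ × F.ζ) → ℝ) (a : ℕ → F.Ω → ℝ) (s t : F.Ω → ℝ),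
      UFi F A σ wl wa wb vp kap Hu HN al nu kN nN a s t B C → σ 0 = i₀ →
      ∀ (w D : ℕ) (V : Type) (wn : F.Ω → V) (x : ℝ), wa ≤ w → w ≤ wb →
        Det F.p (slam F w) wn →
        (∀ ω ω', A ω → A ω' → 0 < F.p ω → 0 < F.p ω' → wn ω = wn ω' →
          a w ω = a w ω' ∧ s ω = s ω' ∧ t ω = t ω') → (w : ℝ) ≤ m i * J →
        rt (m i) * J + 2 * h * J ≤ vp w + x → rt (m i) * J + 2 * h * J ≤ D →
        rt (m i) * J + 2 * h * J ≤ kap → rt (m i) * J + 2 * h * J ≤ Hu →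
        rt (m i) * J + 2 * h * J ≤ HN →
      Pool.KAF.Pr (dbl (Pool.Agent.H49.Ent.cond F.p A True) wn)
        {v | |sl (vp w) D (a w) (fun ω => al (Fam.pt F ω)) v.1 -
          sl (vp w) D (a w) (fun ω => al (Fam.pt F ω)) v.2| < (2 : ℝ) ^ (-x)} ≤ ε) (by
    intro i hi
    obtain ⟨c1, c2⟩ := hmr i (by omega)
    obtain ⟨c3, c4⟩ := hr (m i) c1 c2
    exact h62p_one hSt (c2.trans hw₂) (hrt (m i) (hw₁.trans c1) (c2.trans hw₂))
      hh hε c3 c4 B C)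
  refine Clp.mono (J₂ := 1) key ?_
  intro J hJ F A hc σ wl wa wb vp kap Hu HN al nu kN nN a s t hU hσ w D V wn x hwa hwb hwn hfr hw1
    hw2 hlev
  have hJ0 : (0 : ℝ) < J := by exact_mod_cast hJ
  -- the mesh point
  obtain ⟨sp, hsp⟩ : ∃ sp : ℝ, sp = ((w₂ - w₁ : ℚ) : ℝ) / N := ⟨_, rfl⟩
  have hsp0 : 0 < sp := by rw [hsp]; positivity
  have hsph : sp ≤ h / 2 := by
    rw [hsp, div_le_iff₀ hN0]
    rw [div_lt_iff₀ (by positivity)] at hN
    linarith only [hN]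
  obtain ⟨i, hi⟩ : ∃ i : ℕ, i = ⌈((w : ℝ) / J - w₁) / sp⌉₊ := ⟨_, rfl⟩
  have hx0 : 0 ≤ ((w : ℝ) / J - w₁) / sp := by
    refine div_nonneg ?_ hsp0.le
    have : (w₁ : ℝ) ≤ w / J := by
      rw [le_div_iff₀ hJ0]
      exact hw1
    linarith only [this]
  have hi1 : ((w : ℝ) / J - w₁) / sp ≤ i := by rw [hi]; exact Nat.le_ceil _
  have hi2 : (i : ℝ) < ((w : ℝ) / J - w₁) / sp + 1 := by rw [hi]; exact Nat.ceil_lt_add_one hx0
  rw [div_le_iff₀ hsp0] at hi1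
  have hi3 : (i : ℝ) * sp < (w : ℝ) / J - w₁ + sp := by
    have := mul_lt_mul_of_pos_right hi2 hsp0
    rw [add_mul, div_mul_cancel₀ _ hsp0.ne', one_mul] at this
    exact this
  have hmi : (m i : ℝ) = w₁ + i * sp := by
    rw [hm, hsp]
    push_cast
    ring
  have hwJ : (w : ℝ) = (w : ℝ) / J * J := by field_simp
  have g1 : (w : ℝ) ≤ m i * J := by
    rw [hmi]
    have h1 : (w : ℝ) / J ≤ w₁ + i * sp := by linarith only [hi1]
    calc (w : ℝ) = (w : ℝ) / J * J := hwJ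
      _ ≤ _ := mul_le_mul_of_nonneg_right h1 hJ0.le
  have g2 : m i * (J : ℝ) ≤ w + h * J := by
    rw [hmi]
    have h1 : (w₁ : ℝ) + i * sp ≤ (w : ℝ) / J + h := by linarith only [hsp0, hsph, hi3]
    calc ((w₁ : ℝ) + i * sp) * J ≤ ((w : ℝ) / J + h) * J := mul_le_mul_of_nonneg_right h1 hJ0.le
      _ = w + h * J := by rw [add_mul, ← hwJ]
  have hiN : i ≤ N := by
    by_contra hcon
    push Not at hcon
    have h3 : (N : ℝ) + 1 ≤ i := by exact_mod_cast hcon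
    have h4 : (N : ℝ) * sp = ((w₂ - w₁ : ℚ) : ℝ) := by rw [hsp]; field_simp
    have h5 : ((N : ℝ) + 1) * sp ≤ i * sp := mul_le_mul_of_nonneg_right h3 hsp0.le
    have h6 : (w : ℝ) / J + h ≤ w₂ := by
      have : (w : ℝ) / J + h ≤ (w₂ : ℝ) * J / J := by
        rw [le_div_iff₀ hJ0, add_mul, ← hwJ]
        exact hw2
      rwa [mul_div_cancel_right₀ _ hJ0.ne'] at this
    push_cast at h4
    linarith only [hsp0, hsph, hi3, h5, h6, h4]
  obtain ⟨c1, c2⟩ := hmr i hiN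
  obtain ⟨l1, l2, l3, l4, l5⟩ := hlev (m i) g1 g2 c1 c2
  exact hc i (by omega) σ wl wa wb vp kap Hu HN al nu kN nN a s t hU hσ w D V wn x hwa hwb hwn hfr
    g1 l1 l2 l3 l4 l5

end Pool.S6B
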